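import Mathlib

namespace Pool.Agent.Lib.MP_0e6f11_co

open Finset

theorem exists_blocks {p n : ℕ} (α : Fin p → ℕ) (hα : ∑ i, α i = n) :
    ∃ r : Fin n → Fin p, (∀ f : Fin p → ℕ, ∑ x, f (r x) = ∑ i, α i * f i) ∧
      ∀ x : Fin n, x.val + 1 ≤ ∑ i, if i ≤ r x then α i else 0 := by
  subst hα
  refine ⟨fun x => (finSigmaFinEquiv.symm x).1, fun f => ?_, fun x => ?_⟩
  · rw [← Equiv.sum_comp finSigmaFinEquiv]
    simp [Fintype.sum_sigma]
  · obtain ⟨⟨i, j⟩, rfl⟩ := finSigmaFinEquiv.surjective x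
    rw [finSigmaFinEquiv_apply]
    simp only [Equiv.symm_apply_apply]
    have h1 : (∑ i', if i' ≤ i then α i' else 0) =
        (∑ i', if i' < i then α i' else 0) + α i := by
      have : ∀ i', (if i' ≤ i then α i' else 0) =
          (if i' < i then α i' else 0) + (if i' = i then α i' else 0) := by
        intro i'
        rcases lt_trichotomy i' i with h | h | h
        · simp [h, h.le, h.ne]
        · simp [h]
        · simp [not_le.2 h, not_lt.2 h.le, h.ne']
      simp only [this, Finset.sum_add_distrib, Finset.sum_ite_eq', Finset.mem_univ, if_true]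
    have h2 : (∑ i' : Fin i.val, α (Fin.castLE i.2.le i')) =
        ∑ i', if i' < i then α i' else 0 := by
      rw [← Finset.sum_filter]
      refine Finset.sum_bij (fun i' _ => Fin.castLE i.2.le i') ?_ ?_ ?_ ?_
      · intro i' _
        simp only [Finset.mem_filter, Finset.mem_univ, true_and]
        exact i'.2
      · intro x _ y _ h
        exact Fin.castLE_injective _ h
      · intro y hy
        simp only [Finset.mem_filter, Finset.mem_univ, true_and] at hy
        exact ⟨⟨y.val, hy⟩, Finset.mem_univ _, rfl⟩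
      · intro _ _
        rfl
    have h3 := j.2
    omega

theorem block {p q K n : ℕ} (a α : Fin p → ℕ) (b β : Fin q → ℕ) (θ γ : Fin K → ℕ)
    (hα : ∑ i, α i = n) (hβ : ∑ j, β j = n) (hγ : ∑ k, γ k = n)
    (h1 : ∀ k : Fin K, (∑ k', if k' ≤ k then γ k' else 0) * n ≤
      ∑ i, α i * ∑ j, β j * if a i + b j ≤ θ k then 1 else 0)
    (h2 : ∑ k, γ k * θ k = ∑ i, α i * a i + ∑ j, β j * b j + 1)
    (h3 : ∀ i j k, a i + b j + 1 ≠ θ k) :
    ∃ F : Fin n → Finset (Fin n × Fin n), (∀ i : Fin n, (i.val + 1) * n ≤ (F i).card) ∧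
      ¬ ∃ e : Fin n → Fin n × Fin n, (∀ i, e i ∈ F i) ∧
        ∀ i j, i ≠ j → (e i).1 ≠ (e j).1 ∧ (e i).2 ≠ (e j).2 := by
  obtain ⟨ra, hra, -⟩ := exists_blocks α hα
  obtain ⟨rb, hrb, -⟩ := exists_blocks β hβ
  obtain ⟨τ, hτ, hτ'⟩ := exists_blocks γ hγ
  refine ⟨fun i => Finset.univ.filter fun z => a (ra z.1) + b (rb z.2) ≤ θ (τ i), fun i => ?_, ?_⟩
  · refine le_trans (Nat.mul_le_mul_right n (hτ' i)) (le_trans (h1 (τ i)) (le_of_eq ?_))
    rw [Finset.card_filter, Fintype.sum_prod_type,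
      ← hra fun u => ∑ j, β j * if a u + b j ≤ θ (τ i) then 1 else 0]
    refine Finset.sum_congr rfl fun x _ => ?_
    rw [← hrb fun v => if a (ra x) + b v ≤ θ (τ i) then 1 else 0]
  · rintro ⟨e, he, hd⟩
    have he' : ∀ i, a (ra (e i).1) + b (rb (e i).2) ≤ θ (τ i) := fun i => by
      simpa using he i
    have b1 : Function.Bijective fun i => (e i).1 :=
      Finite.injective_iff_bijective.1 fun i j h => by
        by_contra hne
        exact (hd i j hne).1 h
    have b2 : Function.Bijective fun i => (e i).2 :=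
      Finite.injective_iff_bijective.1 fun i j h => by
        by_contra hne
        exact (hd i j hne).2 h
    have s1 : ∑ i, a (ra (e i).1) = ∑ i, α i * a i := by
      rw [← hra a]
      exact b1.sum_comp fun x => a (ra x)
    have s2 : ∑ i, b (rb (e i).2) = ∑ j, β j * b j := by
      rw [← hrb b]
      exact b2.sum_comp fun x => b (rb x)
    have s3 : ∑ i, θ (τ i) = ∑ i, (a (ra (e i).1) + b (rb (e i).2)) + 1 := by
      rw [hτ θ, h2, Finset.sum_add_distrib, s1, s2]
    have s4 : ∑ i, (θ (τ i) - (a (ra (e i).1) + b (rb (e i).2))) = 1 := by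
      rw [Finset.sum_tsub_distrib _ fun i _ => he' i]
      omega
    obtain ⟨i, -, hi⟩ := Finset.exists_ne_zero_of_sum_ne_zero (s4 ▸ one_ne_zero)
    have s5 : θ (τ i) - (a (ra (e i).1) + b (rb (e i).2)) ≤ 1 :=
      s4 ▸ Finset.single_le_sum (f := fun i => θ (τ i) - (a (ra (e i).1) + b (rb (e i).2)))
        (fun _ _ => Nat.zero_le _) (Finset.mem_univ i)
    have s6 := h3 (ra (e i).1) (rb (e i).2) (τ i)
    omega

def rowVal : Fin 7 → ℕ := ![0, 2, 4, 6, 120, 129, 138]
def rowSize : Fin 7 → ℕ := ![12376, 9724, 9724, 4080, 4422, 14586, 3432]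
def colVal : Fin 8 → ℕ := ![0, 2, 40, 46, 52, 58, 80, 89]
def colSize : Fin 8 → ℕ := ![1768, 19448, 264, 2652, 2652, 16116, 858, 14586]
def thrVal : Fin 47 → ℕ := ![0, 2, 4, 6, 8, 40, 42, 44, 46, 48, 50, 52, 54, 56, 58, 60, 62, 64,
  80, 82, 84, 86, 89, 91, 93, 95, 120, 122, 129, 131, 138, 140, 160, 166, 169, 172, 175, 178, 181,
  184, 187, 190, 196, 200, 209, 218, 227]
def thrSize : Fin 47 → ℕ := ![375, 4420, 3536, 3365, 1360, 56, 44, 44, 581, 442, 442, 748, 442,
  442, 3604, 2686, 2686, 1127, 182, 143, 143, 60, 3094, 2431, 2431, 1020, 134, 1474, 442, 4862,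
  104, 1144, 20, 201, 66, 201, 663, 1237, 663, 156, 4029, 156, 948, 65, 1320, 3697, 858]

theorem main :
    ∃ F : Fin 58344 → Finset (Fin 58344 × Fin 58344),
      (∀ i : Fin 58344, (i.val + 1) * 58344 ≤ (F i).card) ∧
      ¬ ∃ e : Fin 58344 → Fin 58344 × Fin 58344, (∀ i, e i ∈ F i) ∧
        ∀ i j, i ≠ j → (e i).1 ≠ (e j).1 ∧ (e i).2 ≠ (e j).2 :=
  block rowVal rowSize colVal colSize thrVal thrSize (by decide +kernel) (by decide +kernel)
    (by decide +kernel) (by decide +kernel) (by decide +kernel) (by decide +kernel)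

end Pool.Agent.Lib.MP_0e6f11_co
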